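import Pool.Agent.K7.H78.MZ.Lx
import Pool.Agent.K7.H78.MZ.Hl
import Pool.Agent.K7.H78.MZ.Poly
import Pool.Agent.H447R2.MZ.Tup

/-!
# MP_301213_nt: polynomial relations between Hoffman words with given numbers of `3`s and `2`s

Let `d_j`, `e_j ≥ r`, `j < m`, and let `E` be a finite set of monomials in `m` variables. For all but a proportion
`C |E| ^ 2 (1 + log (|E| B)) / √r` of the `m`-tuples of words `w_j` with exactly `d_j` letters `3` and `e_j` letters `2` the
numbers `ζ(w_j)` satisfy no polynomial relation with monomials in `E` and coefficients which are zero or between `1` and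
`B` in absolute value (for example integers of absolute value at most `B`). More precisely the value of such a polynomial
is at least `1 / |E|` times its largest monomial. For the unit vectors `E` these are linear relations, as in `Q1`.

In the problem `C_{k,d}` is the set of words of weight `k` with at most `d` letters `3`. The hand-in `AlmostAllTuples` is
about all words of weight `k`; in almost all of them the number of `3`s is near to a fixed multiple of `k`. The present
theorem is uniform in the number of `3`s: it also holds for sparse `3`s or sparse `2`s (`r` is small compared with `k`), and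
on each level separately. Here exchanging two letters `3` and `2` has to be sufficient, because exchanges of `333` and
`222` are rare. Five exchanges of letters `3` with letters `2` half a word later increase the value by a constant factor
(`gain_lw` in the helper file `Lw`), and single exchanges do not decrease it; so the values on a cube of words which are
in a short interval are a union of five antichains. The dimension of the cubes is of the order `r` for most words of
the level, by double counting (`slice_inv` in the helper file `Slice`).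
-/

set_option autoImplicit false

namespace Pool.Agent.Results.MP_301213_nt.AlmostAllLevels

/-- the multiple zeta value of the list `l`, the first entry belongs to the largest summation variable, in the words of
`S16469` -/
noncomputable def mzv (l : List ℕ) : ℝ :=
  ∑' m : {m : Fin l.length → ℕ // StrictAnti m ∧ ∀ i, 0 < m i}, ∏ i, ((m.1 i : ℝ) ^ (l.get i))⁻¹

/-- the words with `d` letters `3` and `e` letters `2` -/
def Level (d e : ℕ) : Set (List ℕ) := {l | (∀ a ∈ l, a = 2 ∨ a = 3) ∧ l.count 3 = d ∧ l.count 2 = e}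

/-- the tuples of words `w_j` with `d_j` letters `3` and `e_j` letters `2` -/
def Tuples {m : ℕ} (d e : Fin m → ℕ) : Set (Fin m → List ℕ) := {w | ∀ j, w j ∈ Level (d j) (e j)}

/-- polynomials in the `ζ(w_j)` with monomials in `E` and coefficients which are zero or between `1` and `B` in absolute
value are at least `1 / |E|` times each of their monomials -/
def Good {m : ℕ} (w : Fin m → List ℕ) (E : Finset (Fin m → ℕ)) (B : ℝ) : Prop :=
  ∀ c : (Fin m → ℕ) → ℝ, (∀ a ∈ E, c a = 0 ∨ (1 ≤ |c a| ∧ |c a| ≤ B)) → ∀ a ∈ E, c a ≠ 0 →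
    0 < ∏ j, mzv (w j) ^ a j ∧ ∏ j, mzv (w j) ^ a j ≤ E.card * |∑ b ∈ E, c b * ∏ j, mzv (w j) ^ b j|

lemma mzv_eq {l : List ℕ} (hl : Pool.Agent.H447R2.MZ.Adm l) : mzv l = Pool.Agent.K7.H78.MZ.mzv l := by
  have h1 := Pool.Agent.H447R2.MZ.hasSum_val l.length l.get (by rw [List.ofFn_get]; exact hl)
  rw [List.ofFn_get] at h1
  rw [Pool.Agent.K7.H78.MZ.mzv_val l hl]
  exact h1.tsum_eq

open Pool.Agent.K7.H78.MZ (LL mem_LL nl nl_inj index_wl AdmW_wl anti_LL c8 c8_pos poly_count dominateE wl zv index)

lemma count_nl (l : List Bool) : (nl l).count 3 = l.count true ∧ (nl l).count 2 = l.count false := by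
  induction l with
  | nil => exact ⟨rfl, rfl⟩
  | cons a l ih =>
    have e : nl (a :: l) = (if a then 3 else 2) :: nl l := rfl
    rw [e, List.count_cons, List.count_cons, List.count_cons, List.count_cons, ih.1, ih.2]
    cases a <;> simp

/-- the level as a finite set -/
noncomputable def Lf (d e : ℕ) : Finset (List ℕ) := (LL d e).image nl

lemma mem_Lf (d e : ℕ) (w : List ℕ) : w ∈ Lf d e ↔ w ∈ Level d e := by
  rw [Lf, Finset.mem_image]
  constructor
  · rintro ⟨l, hl, rfl⟩
    rw [mem_LL] at hl
    refine ⟨?_, by rw [(count_nl l).1, hl.1], by rw [(count_nl l).2, hl.2]⟩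
    intro a ha
    obtain ⟨b, _, rfl⟩ := List.mem_map.1 ha
    cases b <;> simp
  · rintro ⟨h1, h2, h3⟩
    have h4 : nl (w.map fun a => decide (a = 3)) = w := by
      rw [nl, List.map_map]
      conv_rhs => rw [← List.map_id w]
      refine List.map_congr_left fun a ha => ?_
      rcases h1 a ha with rfl | rfl <;> simp
    refine ⟨w.map fun a => decide (a = 3), ?_, h4⟩
    rw [mem_LL, ← (count_nl _).1, ← (count_nl _).2, h4]
    exact ⟨h2, h3⟩

lemma Lf_adm {d e : ℕ} {w : List ℕ} (hw : w ∈ Lf d e) : Pool.Agent.H447R2.MZ.Adm w := by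
  obtain ⟨l, _, rfl⟩ := Finset.mem_image.1 hw
  rw [← index_wl]
  exact (AdmW_wl l).adm

lemma Lf_pos {d e : ℕ} {w : List ℕ} (hw : w ∈ Lf d e) : 0 < mzv w := by
  rw [mzv_eq (Lf_adm hw)]
  obtain ⟨l, _, rfl⟩ := Finset.mem_image.1 hw
  rw [← index_wl]
  exact (AdmW_wl l).pos

lemma Lf_nonempty (d e : ℕ) : (Lf d e).Nonempty := by
  refine Finset.Nonempty.image ⟨List.replicate d true ++ List.replicate e false, ?_⟩ _
  rw [mem_LL, List.count_append, List.count_append, List.count_replicate_self, List.count_replicate,
    List.count_replicate, List.count_replicate_self]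
  simp

lemma anti_Lf (d e r : ℕ) (hr : 0 < r) (hd : r ≤ d) (he : r ≤ e) (lam : ℝ) (hlam : 0 ≤ lam) (c : ℝ) :
    (((Lf d e).filter fun w => |Real.log (mzv w) - c| ≤ lam).card : ℝ) ≤
      ((2 * lam / c8 + 1) * (30 / Real.sqrt r)) * (Lf d e).card := by
  classical
  have h1 := anti_LL d e r hr hd he (c - lam) (2 * lam) (by positivity)
  have h2 : (Lf d e).card = (LL d e).card := by
    rw [Lf, Finset.card_image_of_injective _ nl_inj]
  rw [h2]
  refine le_trans ?_ h1
  have h3 : ((Lf d e).filter fun w => |Real.log (mzv w) - c| ≤ lam) ⊆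
      ((LL d e).filter fun l => c - lam ≤ Real.log (zv (wl l)) ∧ Real.log (zv (wl l)) ≤ c - lam + 2 * lam).image nl := by
    intro w hw
    obtain ⟨h4, h5⟩ := Finset.mem_filter.1 hw
    have h7 := abs_le.1 h5
    rw [mzv_eq (Lf_adm h4)] at h7
    obtain ⟨l, hl, rfl⟩ := Finset.mem_image.1 h4
    refine Finset.mem_image.2 ⟨l, Finset.mem_filter.2 ⟨hl, ?_⟩, rfl⟩
    rw [zv, index_wl]
    exact ⟨by linarith [h7.1], by linarith [h7.2]⟩
  exact_mod_cast (Finset.card_le_card h3).trans Finset.card_image_le

/-- **Theorem.** There is a constant `C` such that for all `m`, all `r ≥ 1`, `B ≥ 1`, all `d_j, e_j ≥ r` and all finite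
nonempty sets `E` of exponents `a ∈ ℕ ^ m`, all but a proportion `C |E| ^ 2 (1 + log (|E| B)) / √r` of the `m`-tuples of words
`w_j` with `d_j` letters `3` and `e_j` letters `2` have the following property. For all real coefficients `c_a`, `a ∈ E`, each of
which is zero or satisfies `1 ≤ |c_a| ≤ B` (for example integers of absolute value at most `B`), and all `a ∈ E` with
`c_a ≠ 0` one has `0 < ∏ ζ(w_j) ^ {a_j} ≤ |E| |∑_b c_b ∏ ζ(w_j) ^ {b_j}|`. In particular there is no relation
`∑_b c_b ∏ ζ(w_j) ^ {b_j} = 0` with such coefficients, not all zero. The set of tuples is finite and not empty. -/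
theorem result : ∃ C : ℝ, 0 < C ∧ ∀ (m r : ℕ) (B : ℝ), 1 ≤ r → 1 ≤ B →
    ∀ d e : Fin m → ℕ, (∀ j, r ≤ d j ∧ r ≤ e j) → ∀ E : Finset (Fin m → ℕ), E.Nonempty →
      (Tuples d e).Finite ∧ (Tuples d e).Nonempty ∧
        ({w ∈ Tuples d e | ¬ Good w E B}.ncard : ℝ) ≤
          C * (E.card : ℝ) ^ 2 * (1 + Real.log (E.card * B)) / Real.sqrt r * (Tuples d e).ncard := by
  classical
  have hc8 := c8_pos
  refine ⟨30 * (2 / c8 + 1), by positivity, fun m r B hr hB d e hde E hE => ?_⟩
  set S : Fin m → Finset (List ℕ) := fun j => Lf (d j) (e j) with hS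
  have hF : Tuples d e = (Fintype.piFinset S : Set (Fin m → List ℕ)) := by
    ext w
    rw [Finset.mem_coe, Fintype.mem_piFinset]
    refine forall_congr' fun j => ?_
    rw [hS, mem_Lf]
  refine ⟨?_, ?_, ?_⟩
  · rw [hF]
    exact Finset.finite_toSet _
  · rw [hF, Finset.coe_nonempty, Fintype.piFinset_nonempty]
    exact fun j => Lf_nonempty _ _
  · set lam : ℝ := Real.log (E.card * B) with hlam
    have hE1 : (1 : ℝ) ≤ E.card := by exact_mod_cast hE.card_pos
    have hEB : 1 ≤ E.card * B := by nlinarith
    have hlam0 : 0 ≤ lam := Real.log_nonneg hEB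
    have hr0 : (0 : ℝ) < r := by exact_mod_cast hr
    have hs : (0 : ℝ) < Real.sqrt r := Real.sqrt_pos.2 hr0
    have h1 : {w ∈ Tuples d e | ¬ Good w E B} ⊆
        (((Fintype.piFinset S).filter fun w => ∃ a ∈ E, ∃ b ∈ E, a ≠ b ∧
          |∑ i, ((a i : ℤ) - (b i : ℤ) : ℤ) * Real.log (mzv (w i))| ≤ lam :
            Finset (Fin m → List ℕ)) : Set (Fin m → List ℕ)) := by
      rintro w ⟨hw, hbad⟩
      have hw' : w ∈ Fintype.piFinset S := by rw [← Finset.mem_coe, ← hF]; exact hw
      rw [Finset.mem_coe, Finset.mem_filter]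
      refine ⟨hw', ?_⟩
      by_contra hcon
      push Not at hcon
      refine hbad fun c hc a ha hca => ?_
      have hpos : ∀ i, 0 < mzv (w i) := fun i => Lf_pos (Fintype.mem_piFinset.1 hw' i)
      have hmon : ∀ b : Fin m → ℕ, 0 < ∏ j, mzv (w j) ^ b j := fun b =>
        Finset.prod_pos fun j _ => pow_pos (hpos j) _
      have hlog : ∀ b : Fin m → ℕ, Real.log (∏ j, mzv (w j) ^ b j) = ∑ j, (b j : ℝ) * Real.log (mzv (w j)) := by
        intro b
        rw [Real.log_prod fun j _ => (pow_pos (hpos j) _).ne']
        exact Finset.sum_congr rfl fun j _ => Real.log_pow _ _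
      refine ⟨hmon a, dominateE E (fun b => ∏ j, mzv (w j) ^ b j) (fun b _ => hmon b) B hB ?_ c hc a ha hca⟩
      intro b hb b' hb' hbb
      have h2 := hcon b hb b' hb' hbb
      rw [hlog, hlog, ← Finset.sum_sub_distrib]
      refine lt_of_lt_of_eq h2 ?_
      congr 1
      refine Finset.sum_congr rfl fun i _ => ?_
      push_cast
      ring
    have h2 := Set.ncard_le_ncard h1 (Finset.finite_toSet _)
    rw [Set.ncard_coe_finset] at h2
    have h3 := poly_count S (fun _ w => Real.log (mzv w)) lam ((2 * lam / c8 + 1) * (30 / Real.sqrt r)) E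
      (fun j c => anti_Lf (d j) (e j) r hr (hde j).1 (hde j).2 lam hlam0 c) (by positivity)
    have hcard : (Tuples d e).ncard = (Fintype.piFinset S).card := by
      rw [hF, Set.ncard_coe_finset]
    rw [hcard]
    refine le_trans (by exact_mod_cast h2) (h3.trans ?_)
    refine mul_le_mul_of_nonneg_right ?_ (Nat.cast_nonneg _)
    have h4 : (2 * lam / c8 + 1) * (30 / Real.sqrt r) ≤ 30 * (2 / c8 + 1) * (1 + lam) / Real.sqrt r := by
      rw [mul_div_assoc', div_le_div_iff_of_pos_right hs]
      have h5 : 0 ≤ 2 / c8 := by positivity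
      have h6 : 2 * lam / c8 = 2 / c8 * lam := by ring
      rw [h6]
      nlinarith
    calc (E.card : ℝ) ^ 2 * ((2 * lam / c8 + 1) * (30 / Real.sqrt r))
        ≤ (E.card : ℝ) ^ 2 * (30 * (2 / c8 + 1) * (1 + lam) / Real.sqrt r) :=
          mul_le_mul_of_nonneg_left h4 (by positivity)
      _ = _ := by ring

end Pool.Agent.Results.MP_301213_nt.AlmostAllLevels
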