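import Pool.Agent.K7.H78.MZ.Hl
import Pool.Agent.H447R2.MZ.Tup

/-!
# MP_301213_nt: almost all tuples of Hoffman words have no small relation

For all but a proportion `C m ^ 2 (1 + log (m B)) / √k` of the `m`-tuples `w_1, ..., w_m` of words in the letters `2`, `3` of
weight `k`, the numbers `ζ(w_j)` satisfy no linear relation with integer coefficients of absolute value at most `B`, not
all zero; more precisely `ζ(w_j) ≤ m |∑ c_i ζ(w_i)|` for all integers `|c_i| ≤ B` and all `j` with `c_j ≠ 0`. Here `B` may be as
large as `exp (k ^ (1 / 2 - ε))`, and `m` may grow as `k ^ (1 / 4 - ε)`. For `m = 2` this says that `ζ(w_1) / ζ(w_2)` is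
not a rational number of height at most `B`, for almost all pairs; in particular almost all pairs have different values.

The reason: if some letters `333` and `222` of a word, the latter belonging to smaller variables, with more than a quarter of
the word between them, are exchanged, then the multiple zeta value increases by a constant factor (helper file `Hx`). To
see this, write the value as the iterated integral over `r_1 < ⋯ < r_k` of the densities `(1 + e ^ (-r))⁻¹` (letter `x`)
and `(1 + e ^ r)⁻¹` (letter `y`). Exchanging `x` at `r` with a later `y` at `s` multiplies the integrand by `e ^ (s - r)`, and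
an entropy argument shows that `s - r` is smaller than a constant only on a small part of the integral; the other
changes are exchanges of neighbours `xy → yx`, which also increase the value. So the logarithm of the value of a
random word increases by a constant along the edges of large cubes, and is not concentrated, by Sperner's theorem.
-/

set_option autoImplicit false

namespace Pool.Agent.Results.MP_301213_nt.AlmostAllTuples

/-- the multiple zeta value of the list `l`, the first entry belongs to the largest summation variable, in the words of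
`S16469` -/
noncomputable def mzv (l : List ℕ) : ℝ :=
  ∑' m : {m : Fin l.length → ℕ // StrictAnti m ∧ ∀ i, 0 < m i}, ∏ i, ((m.1 i : ℝ) ^ (l.get i))⁻¹

/-- the words of weight `k` in the letters `2`, `3` -/
def Words (k : ℕ) : Set (List ℕ) := {l | (∀ a ∈ l, a = 2 ∨ a = 3) ∧ l.sum = k}

/-- the `m`-tuples of words of weight `k` in the letters `2`, `3` -/
def Tuples (m k : ℕ) : Set (Fin m → List ℕ) := {w | ∀ j, w j ∈ Words k}

/-- the values of the words `w_j` have no integer relation of height at most `B`, and the values of the linear forms of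
height at most `B` are large -/
def Good {m : ℕ} (w : Fin m → List ℕ) (B : ℝ) : Prop :=
  ∀ c : Fin m → ℤ, (∀ j, |(c j : ℝ)| ≤ B) → ∀ j, c j ≠ 0 →
    0 < mzv (w j) ∧ mzv (w j) ≤ m * |∑ i, (c i : ℝ) * mzv (w i)|

lemma mzv_eq {l : List ℕ} (hl : Pool.Agent.H447R2.MZ.Adm l) : mzv l = Pool.Agent.K7.H78.MZ.mzv l := by
  have h1 := Pool.Agent.H447R2.MZ.hasSum_val l.length l.get (by rw [List.ofFn_get]; exact hl)
  rw [List.ofFn_get] at h1
  rw [Pool.Agent.K7.H78.MZ.mzv_val l hl]
  exact h1.tsum_eq

open Pool.Agent.K7.H78.MZ (Hf mem_Hf Hf_adm Hf_pos anti_Hf sep_count dominate HL_nonempty) in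
/-- **Theorem.** There is a constant `C` such that for all `m ≥ 1`, `k ≥ 2` and `B ≥ 1` all but a proportion
`C m ^ 2 (1 + log (m B)) / √k` of the `m`-tuples of words `w_j` in the letters `2`, `3` of weight `k` have the following
property: for all integers `|c_j| ≤ B` and all `j` with `c_j ≠ 0` one has `0 < ζ(w_j) ≤ m |∑ c_i ζ(w_i)|`. In particular
`∑ c_i ζ(w_i) ≠ 0` if the integers `|c_i| ≤ B` are not all zero. The set of tuples is finite and not empty. -/
theorem result : ∃ C : ℝ, 0 < C ∧ ∀ (m k : ℕ) (B : ℝ), 1 ≤ m → 2 ≤ k → 1 ≤ B →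
    (Tuples m k).Finite ∧ (Tuples m k).Nonempty ∧
      ({w ∈ Tuples m k | ¬ Good w B}.ncard : ℝ) ≤
        C * (m : ℝ) ^ 2 * (1 + Real.log (m * B)) / Real.sqrt k * (Tuples m k).ncard := by
  classical
  refine ⟨2664222, by norm_num, fun m k B hm hk hB => ?_⟩
  set S : Fin m → Finset (List ℕ) := fun _ => Hf k with hS
  have hF : Tuples m k = (Fintype.piFinset S : Set (Fin m → List ℕ)) := by
    ext w
    rw [Finset.mem_coe, Fintype.mem_piFinset]
    refine forall_congr' fun j => ?_
    rw [hS, mem_Hf]
    rfl
  refine ⟨?_, ?_, ?_⟩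
  · rw [hF]
    exact Finset.finite_toSet _
  · rw [hF, Finset.coe_nonempty, Fintype.piFinset_nonempty]
    exact fun _ => (HL_nonempty k hk).image _
  · set lam : ℝ := Real.log (m * B) with hlam
    have hm1 : (1 : ℝ) ≤ m := by exact_mod_cast hm
    have hmB : 1 ≤ m * B := by nlinarith
    have hlam0 : 0 ≤ lam := Real.log_nonneg hmB
    have hk0 : (0 : ℝ) < k := by positivity
    have hs : (0 : ℝ) < Real.sqrt k := Real.sqrt_pos.2 hk0
    have h1 : {w ∈ Tuples m k | ¬ Good w B} ⊆
        (((Fintype.piFinset S).filter fun w => ∃ j l, j ≠ l ∧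
          |Real.log (Pool.Agent.K7.H78.MZ.mzv (w j)) - Real.log (Pool.Agent.K7.H78.MZ.mzv (w l))| ≤ lam :
            Finset (Fin m → List ℕ)) : Set (Fin m → List ℕ)) := by
      rintro w ⟨hw, hbad⟩
      have hw' : w ∈ Fintype.piFinset S := by rw [← Finset.mem_coe, ← hF]; exact hw
      rw [Finset.mem_coe, Finset.mem_filter]
      refine ⟨hw', ?_⟩
      by_contra hcon
      push Not at hcon
      refine hbad fun c hc j hj => ?_
      have hmem : ∀ i, w i ∈ Hf k := fun i => Fintype.mem_piFinset.1 hw' i
      simp only [fun i => mzv_eq (Hf_adm (hmem i))]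
      exact ⟨Hf_pos (hmem j), dominate (fun i => Pool.Agent.K7.H78.MZ.mzv (w i)) (fun i => Hf_pos (hmem i)) B hB
        hcon c hc j hj⟩
    have h2 := Set.ncard_le_ncard h1 (Finset.finite_toSet _)
    rw [Set.ncard_coe_finset] at h2
    have h3 := sep_count S (fun _ w => Real.log (Pool.Agent.K7.H78.MZ.mzv w)) lam
      ((12000 * lam + 1) * (222 / Real.sqrt k)) (fun j c => by
        refine le_trans ?_ ((anti_Hf k hk (c - lam) (2 * lam) (by positivity)).trans (le_of_eq ?_))
        · have h4 : ((Hf k).filter fun w => |Real.log (Pool.Agent.K7.H78.MZ.mzv w) - c| ≤ lam) ⊆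
              (Hf k).filter fun w => c - lam ≤ Real.log (Pool.Agent.K7.H78.MZ.mzv w) ∧
                Real.log (Pool.Agent.K7.H78.MZ.mzv w) ≤ c - lam + 2 * lam := by
            intro w hw
            obtain ⟨h5, h6⟩ := Finset.mem_filter.1 hw
            have h7 := abs_le.1 h6
            exact Finset.mem_filter.2 ⟨h5, by linarith [h7.1], by linarith [h7.2]⟩
          exact_mod_cast Finset.card_le_card h4
        · ring) (by positivity)
    have hcard : (Tuples m k).ncard = (Fintype.piFinset S).card := by
      rw [hF, Set.ncard_coe_finset]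
    rw [hcard]
    refine le_trans (by exact_mod_cast h2) (h3.trans ?_)
    refine mul_le_mul_of_nonneg_right ?_ (Nat.cast_nonneg _)
    have h4 : (12000 * lam + 1) * (222 / Real.sqrt k) ≤ 2664222 * (1 + lam) / Real.sqrt k := by
      rw [mul_div_assoc', div_le_div_iff_of_pos_right hs]
      nlinarith
    calc (m : ℝ) ^ 2 * ((12000 * lam + 1) * (222 / Real.sqrt k))
        ≤ (m : ℝ) ^ 2 * (2664222 * (1 + lam) / Real.sqrt k) := mul_le_mul_of_nonneg_left h4 (by positivity)
      _ = _ := by ring

end Pool.Agent.Results.MP_301213_nt.AlmostAllTuples
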