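import Mathlib
import Pool.Agent.K7.H57.Suf.Main
import Pool.Agent.H447R2.MZ.Tup

/-!
# MP_301213_nt: Hoffman words with a common last part have no relations of small height

Let `U` be a finite set of admissible words (for instance of words in the letters `2`, `3`) and let `s` be an arbitrary word.
The numbers `ζ(u s)`, `u ∈ U` (the letters of `s` belong to the smallest summation variables, the letters of `u` to the
largest ones), satisfy no linear relation with integer coefficients, not all zero, of absolute value at most `κ · length s`,
where `κ > 0` depends only on `U`, not on `s`; and the value of such a linear form is at least `κ ζ(M, s)` in absolute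
value, with a letter `M = M(U)`.

The starting file `CommonPrefix` has the corresponding theorem for words with a common *first* part `p` (largest variables).

Proof: `ζ(u s)` is the sum over the largest variable `n` of `s` of a weight which does not depend on `u` times the tail
`T_u(n) = ∑_{m_1 > ... > m_r > n} ∏ m_i ^ (- u_i)`. The tails have the convergent expansions
`T_u(n) = ∑_k (n! k! / (n + k)!) h_{u*}(k)`, where `h_{u*}` is the sequence of differences of the harmonic sums of the dual
word `u*` of `u` (helper file `Conn`, transport of the connector `n! k! / (n + k)!`). The harmonic sums of different words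
are linearly independent (starting library), so that the first nonzero coefficient of the expansion of the linear form
determines its sign for all `n ≥ length s`, which are the only `n` that occur.
-/

set_option autoImplicit false

namespace Pool.Agent.Results.MP_301213_nt.CommonSuffix

/-- the multiple zeta value of the list `l`, the first entry belongs to the largest summation variable, in the words of
`S16469` -/
noncomputable def mzv (l : List ℕ) : ℝ :=
  ∑' m : {m : Fin l.length → ℕ // StrictAnti m ∧ ∀ i, 0 < m i}, ∏ i, ((m.1 i : ℝ) ^ (l.get i))⁻¹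

/-- admissible words (the empty word is allowed): positive letters, and the letter of the largest variable is at least two -/
def Admissible (u : List ℕ) : Prop := (∀ x ∈ u, 1 ≤ x) ∧ ∀ x t, u = x :: t → 2 ≤ x

lemma mzv_eq {l : List ℕ} (hl : Pool.Agent.H447R2.MZ.Adm l) : mzv l = Pool.Agent.H447R2.MZ.val l := by
  have h1 := Pool.Agent.H447R2.MZ.hasSum_val l.length l.get (by rw [List.ofFn_get]; exact hl)
  rw [List.ofFn_get] at h1
  exact h1.tsum_eq

lemma adm_append {u s : List ℕ} (hu : Admissible u) (hs : ∀ x ∈ s, 1 ≤ x)
    (h0 : u = [] → ∀ x t, s = x :: t → 2 ≤ x) : Pool.Agent.H447R2.MZ.Adm (u ++ s) := by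
  refine ⟨fun x hx => ?_, fun x t h => ?_⟩
  · rcases List.mem_append.1 hx with h | h
    · exact hu.1 x h
    · exact hs x h
  · cases u with
    | nil => exact h0 rfl x t h
    | cons y p =>
      rw [List.cons_append] at h
      rw [← (List.cons.inj h).1]
      exact hu.2 y p rfl

/-- **Theorem.** For every finite set `U` of admissible words there are `κ > 0` and `M ≥ 2` such that for all nonempty words
`s` with positive letters (if the empty word belongs to `U`, the first letter of `s` is at least two) and all integers
`c_u`, `u ∈ U`, not all zero, of absolute value at most `κ · length s`: `|∑ c_u ζ(u s)| ≥ κ ζ(M, s) > 0`. In particular the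
numbers `ζ(u s)`, `u ∈ U`, satisfy no nontrivial linear relation with integer coefficients of absolute value at most
`κ · length s`. -/
theorem result (U : Finset (List ℕ)) (hU : ∀ u ∈ U, Admissible u) : ∃ κ : ℝ, 0 < κ ∧ ∃ M : ℕ, 2 ≤ M ∧
    ∀ s : List ℕ, s ≠ [] → (∀ x ∈ s, 1 ≤ x) → ([] ∈ U → ∀ x t, s = x :: t → 2 ≤ x) →
      ∀ c : List ℕ → ℤ, (∀ u ∈ U, |(c u : ℝ)| ≤ κ * s.length) → (∃ u ∈ U, c u ≠ 0) →
        0 < mzv (M :: s) ∧ κ * mzv (M :: s) ≤ |∑ u ∈ U, (c u : ℝ) * mzv (u ++ s)| := by
  obtain ⟨κ, hκ, M, hM, h⟩ := Pool.Agent.K7.H57.Suf.main U hU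
  refine ⟨κ, hκ, M, hM, fun s hs0 hs hnil c hc hne => ?_⟩
  obtain ⟨a, s, rfl⟩ : ∃ b t, s = b :: t := by
    cases s with
    | nil => exact absurd rfl hs0
    | cons b t => exact ⟨b, t, rfl⟩
  have hM1 : Admissible [M] := ⟨fun x hx => by rw [List.mem_singleton.1 hx]; omega, fun x t h => by
    rw [← (List.cons.inj h).1]; exact hM⟩
  have hadmM := adm_append hM1 hs (fun h => absurd h (List.cons_ne_nil _ _))
  rw [List.singleton_append] at hadmM
  have h1 := h a s (hs a List.mem_cons_self) (fun x hx => hs x (List.mem_cons_of_mem _ hx))
    (fun h => hnil h a s rfl) c (fun u hu => by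
      have := hc u hu
      rw [List.length_cons] at this
      push_cast at this
      exact this) hne
  rw [mzv_eq hadmM]
  refine ⟨Pool.Agent.K7.H57.Suf.val_pos hadmM, h1.trans (le_of_eq ?_)⟩
  congr 1
  refine Finset.sum_congr rfl fun u hu => ?_
  rw [mzv_eq (adm_append (hU u hu) hs fun h => hnil (h ▸ hu))]

end Pool.Agent.Results.MP_301213_nt.CommonSuffix
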