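import Mathlib
import Pool.Agent.K7.H51.MZ.Main
import Pool.Agent.H447R2.MZ.Tup

/-!
# MP_301213_nt: Hoffman words which differ only in a window have no relations of small height

Let `U` be a finite set of words in positive integers (for instance of the words of weight `W` in the letters `2`, `3`), and let
`p`, `s` be ARBITRARY nonempty words, `p` admissible. Put `X = ∑ (p_i - 1)` and `Y = length s`; for words in `2`, `3` these are,
up to the factor `2`, the lengths of `p` and `s`. The numbers `ζ(p u s)`, `u ∈ U` (the letters of `p` belong to the largest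
summation variables, the letters of `s` to the smallest ones), satisfy no linear relation with integer coefficients, not all
zero, of absolute value at most `κ min(X, Y)`, as soon as `min(X, Y) ^ B ≤ κ max(X, Y)`. Here `κ > 0` and `B` depend only on
`U`, and not on the two words `p` and `s`. The linear forms are bounded below by `κ Y ^ (-B) ζ(p, 1, ..., 1, s)` resp.
`κ X ^ (-B) ζ(p, s_1 + M, s_2, ...)`.

The starting file `CommonPrefix` and the file `CommonSuffix` treat words with one common part (`p u` and `u s`), with constants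
which depend on the rest of the word.

Proof. Let `A_w(m)` be the differences of the harmonic sum of the word `w` (in the letters `x`, `y`). Then
`ζ(p s) = ∑_{m, k} A_s(m) A_{p^∨}(k) m! k! / (m + k)!` with the dual word `p^∨`. Prefixing a word `v` to `s` multiplies the vector
`A_s` by a triangular matrix whose diagonals are rational functions; for a combination `∑ c_v v` let `i` be the number of the
first diagonal which is not identically zero (as a rational function). As `A_s` is supported on `m ≥ Y`, the first value of the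
combination which is not zero is the one at `m = Y + i`, and it is not too small because the nonzero polynomial
`P` with `P(Y) ≠ 0` which occurs has integer coefficients and `Y` is large with respect to them. The weights
`∑_k A_{p^∨}(k) m! k! / (m + k)!` decrease by the factor `(m + 1) / (X + m + 1)` at each step; if `X` is large with respect to a
power of `Y`, the first value decides. The other case is dual.
-/

set_option autoImplicit false

namespace Pool.Agent.Results.MP_301213_nt.TwoSidedContext

open Pool.Agent.K7.H51.MZ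

/-- the multiple zeta value of the list `l`, the first entry belongs to the largest summation variable, in the words of
`S16469` -/
noncomputable def mzv (l : List ℕ) : ℝ :=
  ∑' m : {m : Fin l.length → ℕ // StrictAnti m ∧ ∀ i, 0 < m i}, ∏ i, ((m.1 i : ℝ) ^ (l.get i))⁻¹

/-- admissible words: positive letters, and the letter of the largest variable is at least two -/
def Admissible (u : List ℕ) : Prop := (∀ x ∈ u, 1 ≤ x) ∧ ∀ x t, u = x :: t → 2 ≤ x

/-- the sum of the numbers `u_i - 1`, that is the number of letters `x` in the word `x ^ (u_1 - 1) y x ^ (u_2 - 1) y ...` -/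
def excess (u : List ℕ) : ℕ := (u.map fun a => a - 1).sum

/-- adding `k` to the first letter -/
def raise (k : ℕ) : List ℕ → List ℕ
  | [] => []
  | a :: t => (a + k) :: t

lemma mzv_eq {l : List ℕ} (hl : Pool.Agent.H447R2.MZ.Adm l) : mzv l = Pool.Agent.H447R2.MZ.val l := by
  have h1 := Pool.Agent.H447R2.MZ.hasSum_val l.length l.get (by rw [List.ofFn_get]; exact hl)
  rw [List.ofFn_get] at h1
  exact h1.tsum_eq

lemma decA_word {u : List ℕ} (hu : ∀ x ∈ u, 1 ≤ x) : decA 0 (wordT u) = u := by
  have h := decA_wordT u hu []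
  rw [List.append_nil] at h
  rw [h]
  simp [decA]

lemma count_true (u : List ℕ) : (wordT u).count true = u.length := by
  induction u with
  | nil => rfl
  | cons a u ih =>
    rw [wordT, List.count_append, List.count_cons_self, ih, List.length_cons, List.count_replicate]
    simp

lemma count_false (u : List ℕ) : (wordT u).count false = excess u := by
  induction u with
  | nil => rfl
  | cons a u ih =>
    rw [wordT, List.count_append, List.count_replicate_self, List.count_cons_of_ne (by decide), ih]
    simp [excess]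

lemma bx {p : List ℕ} (hp0 : p ≠ []) (hp : Admissible p) : BX (wordT p) := by
  obtain ⟨a, t, rfl⟩ : ∃ b t, p = b :: t := by
    cases p with
    | nil => exact absurd rfl hp0
    | cons b t => exact ⟨b, t, rfl⟩
  have ha := hp.2 a t rfl
  obtain ⟨a', rfl⟩ : ∃ a', a = a' + 2 := ⟨a - 2, by omega⟩
  exact ⟨List.replicate a' false ++ true :: wordT t, by
    rw [wordT, show a' + 2 - 1 = a' + 1 by omega, List.replicate_succ, List.cons_append]⟩

lemma adm_app {p q : List ℕ} (hp0 : p ≠ []) (hp : Admissible p) (hq : ∀ x ∈ q, 1 ≤ x) :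
    Pool.Agent.H447R2.MZ.Adm (p ++ q) := by
  refine ⟨fun x hx => ?_, fun x t h => ?_⟩
  · rcases List.mem_append.1 hx with h | h
    · exact hp.1 x h
    · exact hq x h
  · cases p with
    | nil => exact absurd rfl hp0
    | cons y p =>
      rw [List.cons_append] at h
      rw [← (List.cons.inj h).1]
      exact hp.2 y p rfl

lemma meas_one : ∀ q : Fin 1 → ℤ, q ≠ 0 → ∀ T : ℝ, 1 ≤ T → (∀ i, |(q i : ℝ)| ≤ T) →
    (1 : ℝ) ≤ T ^ (0 : ℝ) * |∑ i, (q i : ℝ) * (1 : ℝ)| := by
  intro q hq T _ _
  have h : q 0 ≠ 0 := by
    intro h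
    apply hq
    funext i
    rw [Subsingleton.elim i 0, h]
    rfl
  rw [Real.rpow_zero, one_mul, Fin.sum_univ_one, mul_one, ← Int.cast_abs]
  exact_mod_cast Int.one_le_abs h

/-- **Theorem.** For every finite set `U` of words in positive integers there are `κ > 0`, `B`, `M` and `M'` such that for all
nonempty admissible words `p`, all nonempty words `s` in positive integers and all integers `c_u`, `u ∈ U`, not all zero, with
`X = ∑ (p_i - 1)` and `Y = length s`:
(i) if `|c_u| ≤ κ Y` for all `u` and `Y ^ B ≤ κ X`, then `|∑ c_u ζ(p u s)| ≥ κ Y ^ (-B) ζ(p, 1, ..., 1, s) > 0` (`M` letters `1`);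
(ii) if `|c_u| ≤ κ X` for all `u` and `X ^ B ≤ κ Y`, then `|∑ c_u ζ(p u s)| ≥ κ X ^ (-B) ζ(p, s_1 + M', s_2, ...) > 0`. -/
theorem result (U : Finset (List ℕ)) (hU : ∀ u ∈ U, ∀ x ∈ u, 1 ≤ x) : ∃ κ : ℝ, 0 < κ ∧ ∃ B M M' : ℕ,
    ∀ p s : List ℕ, p ≠ [] → Admissible p → s ≠ [] → (∀ x ∈ s, 1 ≤ x) →
    ∀ c : List ℕ → ℤ, (∃ u ∈ U, c u ≠ 0) →
      ((∀ u ∈ U, |(c u : ℝ)| ≤ κ * s.length) → (s.length : ℝ) ^ B ≤ κ * excess p →
        0 < mzv (p ++ List.replicate M 1 ++ s) ∧
        κ * ((s.length : ℝ) ^ B)⁻¹ * mzv (p ++ List.replicate M 1 ++ s) ≤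
          |∑ u ∈ U, (c u : ℝ) * mzv (p ++ u ++ s)|) ∧
      ((∀ u ∈ U, |(c u : ℝ)| ≤ κ * excess p) → (excess p : ℝ) ^ B ≤ κ * s.length →
        0 < mzv (p ++ raise M' s) ∧
        κ * ((excess p : ℝ) ^ B)⁻¹ * mzv (p ++ raise M' s) ≤
          |∑ u ∈ U, (c u : ℝ) * mzv (p ++ u ++ s)|) := by
  classical
  obtain ⟨κ1, hκ1, B1, M, h1⟩ := main1 (fun _ : Fin 1 => (1 : ℝ)) le_rfl one_pos meas_one (U.image wordT)
  obtain ⟨κ2, hκ2, B2, M', h2⟩ := main2 (fun _ : Fin 1 => (1 : ℝ)) le_rfl one_pos meas_one (U.image wordT)
  refine ⟨min κ1 κ2, lt_min hκ1 hκ2, max B1 B2, M, M', fun p s hp0 hp hs0 hs c hne => ?_⟩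
  have hinj : Set.InjOn wordT (U : Set (List ℕ)) := by
    intro u hu v hv h
    rw [← decA_word (hU u hu), h, decA_word (hU v hv)]
  have hbx := bx hp0 hp
  have hcs := count_true s
  have hcp := count_false p
  have hts : true ∈ wordT s := by
    rw [← List.count_pos_iff, hcs]
    exact List.length_pos_of_ne_nil hs0
  have hY1 : (1 : ℝ) ≤ s.length := by exact_mod_cast List.length_pos_of_ne_nil hs0
  have hX1 : (1 : ℝ) ≤ excess p := by
    have h : 0 < (wordT p).count false := List.count_pos_iff.2 hbx.mem
    rw [hcp] at h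
    exact_mod_cast h
  have hadm : ∀ u ∈ U, Pool.Agent.H447R2.MZ.Adm (p ++ u ++ s) := by
    intro u hu
    rw [List.append_assoc]
    refine adm_app hp0 hp fun x hx => ?_
    rcases List.mem_append.1 hx with h | h
    · exact hU u hu x h
    · exact hs x h
  have hne' : ∃ v ∈ U.image wordT, ∃ _i : Fin 1, (fun w (_ : Fin 1) => c (decA 0 w)) v _i ≠ 0 := by
    obtain ⟨u, hu, hcu⟩ := hne
    exact ⟨wordT u, Finset.mem_image_of_mem _ hu, 0, by simp only [decA_word (hU u hu)]; exact hcu⟩
  have hsum : ∀ f : List Bool → ℝ, (∀ u ∈ U, f (wordT u) = mzv (p ++ u ++ s)) →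
      ∑ v ∈ U.image wordT, (∑ _i : Fin 1, (c (decA 0 v) : ℝ) * 1) * f v = ∑ u ∈ U, (c u : ℝ) * mzv (p ++ u ++ s) := by
    intro f hf
    rw [Finset.sum_image hinj]
    refine Finset.sum_congr rfl fun u hu => ?_
    rw [hf u hu, decA_word (hU u hu), Fin.sum_univ_one, mul_one]
  have hdec : ∀ q : List ℕ, (∀ x ∈ q, 1 ≤ x) → decA 0 (wordT p ++ wordT q) = p ++ q := by
    intro q hq
    rw [decA_wordT p hp.1, decA_word hq]
  have hγ : (1 : ℝ) / (1 + 0) = 1 := by norm_num
  constructor
  · intro hc hL
    have h := h1 (wordT p) (wordT s) hbx hts (fun w _ => c (decA 0 w)) (fun v hv i => ?_) hne' ?_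
    · have h3 : decA 0 (wordT p ++ (List.replicate M true ++ wordT s)) = p ++ List.replicate M 1 ++ s := by
        rw [decA_wordT p hp.1, decA_true_rep, decA_word hs, List.append_assoc]
      have hadm1 : Pool.Agent.H447R2.MZ.Adm (p ++ List.replicate M 1 ++ s) := by
        rw [List.append_assoc]
        refine adm_app hp0 hp fun x hx => ?_
        rcases List.mem_append.1 hx with h | h
        · rw [(List.mem_replicate.1 h).2]
        · exact hs x h
      rw [h3, hcs, hsum (fun v => Pool.Agent.H447R2.MZ.val (decA 0 (wordT p ++ (v ++ wordT s)))) ?_] at h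
      · rw [mzv_eq hadm1]
        have hpos := Pool.Agent.K7.H57.Suf.val_pos hadm1
        refine ⟨hpos, le_trans (mul_le_mul_of_nonneg_right ?_ hpos.le) h⟩
        refine mul_le_mul (min_le_left _ _) ?_ (by positivity) hκ1.le
        exact inv_anti₀ (by positivity) (pow_le_pow_right₀ hY1 (le_max_left _ _))
      · intro u hu
        rw [decA_wordT p hp.1, decA_wordT u (hU u hu), decA_word hs, ← List.append_assoc, mzv_eq (hadm u hu)]
    · obtain ⟨u, hu, rfl⟩ := Finset.mem_image.1 hv
      rw [decA_word (hU u hu), hcs, hγ, Real.rpow_one]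
      exact (hc u hu).trans (mul_le_mul_of_nonneg_right (min_le_left _ _) (by linarith))
    · rw [hcs, hcp]
      calc (s.length : ℝ) ^ B1 ≤ (s.length : ℝ) ^ (max B1 B2) := pow_le_pow_right₀ hY1 (le_max_left _ _)
        _ ≤ min κ1 κ2 * excess p := hL
        _ ≤ κ1 * excess p := mul_le_mul_of_nonneg_right (min_le_left _ _) (by linarith)
  · intro hc hL
    have h := h2 (wordT p) (wordT s) hbx hts (fun w _ => c (decA 0 w)) (fun v hv i => ?_) hne' ?_
    · have h3 : decA 0 ((wordT p ++ List.replicate M' false) ++ wordT s) = p ++ raise M' s := by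
        obtain ⟨a, t, rfl⟩ : ∃ b t, s = b :: t := by
          cases s with
          | nil => exact absurd rfl hs0
          | cons b t => exact ⟨b, t, rfl⟩
        rw [List.append_assoc, decA_wordT p hp.1, decA_rep, zero_add, decA_add (decA_word hs), raise]
      have hadm1 : Pool.Agent.H447R2.MZ.Adm (p ++ raise M' s) := by
        refine adm_app hp0 hp fun x hx => ?_
        cases s with
        | nil => exact absurd rfl hs0
        | cons b t =>
          rw [raise] at hx
          rcases List.mem_cons.1 hx with rfl | hx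
          · have := hs b List.mem_cons_self
            omega
          · exact hs x (List.mem_cons_of_mem _ hx)
      rw [h3, hcp, hsum (fun v => Pool.Agent.H447R2.MZ.val (decA 0 ((wordT p ++ v) ++ wordT s))) ?_] at h
      · rw [mzv_eq hadm1]
        have hpos := Pool.Agent.K7.H57.Suf.val_pos hadm1
        refine ⟨hpos, le_trans (mul_le_mul_of_nonneg_right ?_ hpos.le) h⟩
        refine mul_le_mul (min_le_right _ _) ?_ (by positivity) hκ2.le
        exact inv_anti₀ (by positivity) (pow_le_pow_right₀ hX1 (le_max_right _ _))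
      · intro u hu
        rw [List.append_assoc, decA_wordT p hp.1, decA_wordT u (hU u hu), decA_word hs, ← List.append_assoc,
          mzv_eq (hadm u hu)]
    · obtain ⟨u, hu, rfl⟩ := Finset.mem_image.1 hv
      rw [decA_word (hU u hu), hcp, hγ, Real.rpow_one]
      exact (hc u hu).trans (mul_le_mul_of_nonneg_right (min_le_right _ _) (by linarith))
    · rw [hcs, hcp]
      calc (excess p : ℝ) ^ B2 ≤ (excess p : ℝ) ^ (max B1 B2) := pow_le_pow_right₀ hX1 (le_max_right _ _)
        _ ≤ min κ1 κ2 * s.length := hL
        _ ≤ κ2 * s.length := mul_le_mul_of_nonneg_right (min_le_right _ _) (by linarith)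

end Pool.Agent.Results.MP_301213_nt.TwoSidedContext
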